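import Pool.Agent.W901.RL.Stm

/-!
# The wrapper of Valiant and Vazirani for randomised searches
-/

set_option autoImplicit false

namespace Pool.Agent.W690.RL

open Finset Pool.Agent.NPC Pool.Agent.H579R2.Spt Pool.Agent.W901.RL

theorem sum_BL_append (a b : ℕ) (f : List Bool → ℤ) :
    ∑ r ∈ BL (a + b), f r = ∑ r ∈ BL a, ∑ s ∈ BL b, f (r ++ s) := by
  induction a generalizing f with
  | zero => rw [sum_BL_zero, Nat.zero_add]; simp
  | succ a ih =>
    have e : a + 1 + b = (a + b) + 1 := by omega
    rw [e, sum_BL_succ, sum_BL_succ, Finset.sum_add_distrib, Finset.sum_add_distrib,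
      ih (fun r => f (true :: r)), ih (fun r => f (false :: r))]
    rfl

theorem ind_nonneg (b : Bool) : 0 ≤ ind b := by cases b <;> simp [ind]

/-- the query for the scale `k` -/
def yq (p pn : Polynomial ℕ) (x ρ : List Bool) (k : ℕ) : List Bool :=
  bits (x, rowsL (p.eval x.length + 1) (min k (p.eval x.length + 3)) (ρ.take (pn.eval x.length)))

theorem yq_poly (p pn : Polynomial ℕ) :
    Poly (fun q : (List Bool × List Bool) × ℕ => yq p pn q.1.1 q.1.2 q.2) := by
  have u1 : UPoly (fun q : List Bool × List Bool => p.eval q.1.length) :=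
    (UPoly.length (NPC.Poly.fst NPC.Poly.id)).eval p
  have e0 : Poly (fun q : (List Bool × List Bool) × ℕ => q.1) := NPC.Poly.fst NPC.Poly.id
  have e1 : Poly (fun q : (List Bool × List Bool) × ℕ => q.1.1) := NPC.Poly.fst e0
  have e2 : Poly (fun q : (List Bool × List Bool) × ℕ => q.1.2) := NPC.Poly.snd e0
  have e3 : Poly (fun q : (List Bool × List Bool) × ℕ => q.2) := NPC.Poly.snd NPC.Poly.id
  have u2 : UPoly (fun q : (List Bool × List Bool) × ℕ => p.eval q.1.1.length) := u1.comp e0
  have u4 : UPoly (fun q : (List Bool × List Bool) × ℕ => pn.eval q.1.1.length) :=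
    (UPoly.length e1).eval pn
  have u3 : UPoly (fun q : (List Bool × List Bool) × ℕ => min q.2 (p.eval q.1.1.length + 3)) :=
    UPoly.of_le (NPC.Poly.min e3 (u2.add (UPoly.const 3)).toPoly) (u2.add (UPoly.const 3))
      (fun _ => min_le_right _ _)
  unfold yq
  exact bits_poly.comp (NPC.Poly.pair e1
    (rowsL_poly (u2.add (UPoly.const 1)).toPoly u3 (take_poly' e2 u4.toPoly)))

/-- one trial -/
def trial2 (V0 : List Bool → List Bool) (p pn : Polynomial ℕ)
    (F : List Bool × List Bool → List (List Bool)) (L : List Bool → ℕ) (x ρ : List Bool) : Bool :=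
  (List.range (p.eval x.length + 3)).any (fun k =>
    (F (yq p pn x ρ k, (ρ.drop (pn.eval x.length)).take (L (yq p pn x ρ k)))).any
      (fun w => ver V0 p x w))

theorem trial2_poly {V0 : List Bool → List Bool} (hV0 : PolyTime V0) (p pn : Polynomial ℕ)
    {F : List Bool × List Bool → List (List Bool)} (hF : Poly F) {L : List Bool → ℕ}
    (hL : UPoly L) :
    Poly (fun q : List Bool × List Bool => trial2 V0 p pn F L q.1 q.2) := by
  have u1 : UPoly (fun q : List Bool × List Bool => p.eval q.1.length) :=
    (UPoly.length (NPC.Poly.fst NPC.Poly.id)).eval p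
  unfold trial2
  refine NPC.Poly.any (l := fun q : List Bool × List Bool => List.range (p.eval q.1.length + 3))
    (p := fun q k => (F (yq p pn q.1 q.2 k, (q.2.drop (pn.eval q.1.length)).take
      (L (yq p pn q.1 q.2 k)))).any (fun w => ver V0 p q.1 w))
    (u1.add (UPoly.const 3)).range ?_
  have e0 : Poly (fun q : (List Bool × List Bool) × ℕ => q.1) := NPC.Poly.fst NPC.Poly.id
  have e1 : Poly (fun q : (List Bool × List Bool) × ℕ => q.1.1) := NPC.Poly.fst e0
  have e2 : Poly (fun q : (List Bool × List Bool) × ℕ => q.1.2) := NPC.Poly.snd e0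
  have u4 : UPoly (fun q : (List Bool × List Bool) × ℕ => pn.eval q.1.1.length) :=
    (UPoly.length e1).eval pn
  have hy := yq_poly p pn
  have hLy : Poly (fun q : (List Bool × List Bool) × ℕ => L (yq p pn q.1.1 q.1.2 q.2)) :=
    (hL.comp hy).toPoly
  have hl : Poly (fun q : (List Bool × List Bool) × ℕ =>
      F (yq p pn q.1.1 q.1.2 q.2, (q.1.2.drop (pn.eval q.1.1.length)).take
        (L (yq p pn q.1.1 q.1.2 q.2)))) :=
    hF.comp (NPC.Poly.pair hy (take_poly' (drop_poly' e2 u4.toPoly) hLy))
  refine NPC.Poly.any (l := fun q : (List Bool × List Bool) × ℕ =>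
      F (yq p pn q.1.1 q.1.2 q.2, (q.1.2.drop (pn.eval q.1.1.length)).take
        (L (yq p pn q.1.1 q.1.2 q.2))))
    (p := fun q w => ver V0 p q.1.1 w) hl ?_
  exact (ver_poly hV0 p).comp (NPC.Poly.pair (e1.comp (NPC.Poly.fst NPC.Poly.id))
    (NPC.Poly.snd NPC.Poly.id))

/-- length of the random string for the search -/
noncomputable def Lm (p q : Polynomial ℕ) : Polynomial ℕ :=
  q.comp (Polynomial.C 4 * (Polynomial.C 4 * Polynomial.X + Polynomial.C 3 +
    (p + Polynomial.C 3) * (Polynomial.C 4 * (p + 1) + Polynomial.C 2)) + 1)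

theorem yq_length (p pn : Polynomial ℕ) (x ρ : List Bool) (k : ℕ) :
    (yq p pn x ρ k).length ≤ 4 * x.length + 3 +
      (p.eval x.length + 3) * (4 * (p.eval x.length + 1) + 2) := by
  unfold yq
  rw [bits_length, sz_pair]
  have h1 := sz_listBool_le x
  have h2 := sz_le_length_mul (rowsL (p.eval x.length + 1) (min k (p.eval x.length + 3))
    (ρ.take (pn.eval x.length))) (4 * (p.eval x.length + 1) + 1) (by
      intro a ha
      unfold rowsL at ha
      obtain ⟨i, _, rfl⟩ := List.mem_map.1 ha
      refine (sz_listBool_le _).trans ?_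
      have : (((ρ.take (pn.eval x.length)).drop (i * (p.eval x.length + 1))).take
        (p.eval x.length + 1)).length ≤ p.eval x.length + 1 := List.length_take_le _ _
      omega)
  have h3 : (rowsL (p.eval x.length + 1) (min k (p.eval x.length + 3))
    (ρ.take (pn.eval x.length))).length ≤ p.eval x.length + 3 := by
    unfold rowsL
    rw [List.length_map, List.length_range]
    exact min_le_right _ _
  have h4 := Nat.mul_le_mul_right (4 * (p.eval x.length + 1) + 1 + 1) h3
  have e : 4 * (p.eval x.length + 1) + 1 + 1 = 4 * (p.eval x.length + 1) + 2 := rfl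
  rw [e] at h2 h4
  omega

theorem L_le {L : List Bool → ℕ} {q : Polynomial ℕ}
    (hq : ∀ a, sz (List.replicate (L a) ()) ≤ q.eval (sz a)) (p pn : Polynomial ℕ)
    (x ρ : List Bool) (k : ℕ) : L (yq p pn x ρ k) ≤ (Lm p q).eval x.length := by
  have h1 := hq (yq p pn x ρ k)
  have h2 := length_lt_sz (List.replicate (L (yq p pn x ρ k)) ())
  rw [List.length_replicate] at h2
  refine h2.le.trans (h1.trans ?_)
  unfold Lm
  rw [Polynomial.eval_comp]
  refine eval_mono q ?_
  have h3 := sz_listBool_le (yq p pn x ρ k)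
  have h4 := yq_length p pn x ρ k
  simp only [Polynomial.eval_add, Polynomial.eval_mul, Polynomial.eval_C, Polynomial.eval_X,
    Polynomial.eval_one]
  omega

theorem amplify2 (G : List Bool → Bool) (n : ℕ)
    (h : 21 * 2 ^ n ≤ 128 * ∑ r ∈ BL n, ind (G r)) :
    (2 : ℤ) ^ (4 * n) ≤ 2 * ∑ r ∈ BL (4 * n), ind (acc G n 4 r) := by
  have h1 : 128 * ∑ r ∈ BL n, ind (!G r) ≤ 107 * 2 ^ n := by
    rw [Finset.sum_congr rfl (fun r _ => ind_not (G r)), Finset.sum_sub_distrib]
    have : ∑ r ∈ BL n, (1 : ℤ) = 2 ^ n := by rw [← card_BL]; simp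
    rw [this]
    linarith
  have h0 : 0 ≤ ∑ r ∈ BL n, ind (!G r) :=
    Finset.sum_nonneg fun r _ => ind_nonneg _
  have h2 := pow_le_pow_left₀ (by linarith) h1 4
  have h3 := acc_count G n 4
  have h4 : ∑ r ∈ BL (4 * n), ind (!acc G n 4 r) =
      2 ^ (4 * n) - ∑ r ∈ BL (4 * n), ind (acc G n 4 r) := by
    rw [Finset.sum_congr rfl (fun r _ => ind_not (acc G n 4 r)), Finset.sum_sub_distrib]
    have : ∑ r ∈ BL (4 * n), (1 : ℤ) = 2 ^ (4 * n) := by rw [← card_BL]; simp
    rw [this]
  rw [mul_pow, mul_pow, ← h3, h4, ← pow_mul, mul_comm n 4] at h2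
  norm_num at h2
  have h5 : (0 : ℤ) < 2 ^ (4 * n) := by positivity
  linarith

theorem ncard_eq (n : ℕ) (P : List Bool → Prop) [DecidablePred P] :
    (({r : List Bool | r.length = n ∧ P r}.ncard : ℕ) : ℤ) = ∑ r ∈ BL n, ind (decide (P r)) := by
  have h1 : {r : List Bool | r.length = n ∧ P r} = ↑((BL n).filter (fun r => P r)) := by
    ext r; simp
  rw [h1, Set.ncard_coe_finset, Finset.card_filter]
  push_cast
  refine Finset.sum_congr rfl fun r _ => ?_
  by_cases h : P r <;> simp [ind, h]

theorem rpw : S_RPW := by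
  classical
  intro H A hA
  obtain ⟨V0, p, hV0, hAV⟩ := hA
  have hA2 : ∀ x, x ∈ A ↔ ∃ w, ver V0 p x w = true := by
    intro x
    rw [hAV x]
    exact exists_congr fun w => ver_iff.symm
  obtain ⟨F, L, hF, hL, hFu⟩ := H (fun y => [g1 V0 p y]) (polyTime_of_poly (g1_poly hV0 p)) p
  obtain ⟨q, hq⟩ := NPC.Poly.sz_le hL
  set pn : Polynomial ℕ := (p + 2) * (p + 1) with hpn
  have epn : ∀ x : List Bool, pn.eval x.length = (p.eval x.length + 2) * (p.eval x.length + 1) := by
    intro x
    rw [hpn]
    simp
  set pN : Polynomial ℕ := pn + Lm p q with hpN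
  have epN : ∀ x : List Bool, pN.eval x.length = pn.eval x.length + (Lm p q).eval x.length := by
    intro x
    rw [hpN, Polynomial.eval_add]
  set tr : List Bool → List Bool → Bool := trial2 V0 p pn F L with htr
  set V : List Bool → Bool := fun y =>
    acc (tr (unpair y).1) (pN.eval (unpair y).1.length) 4 (unpair y).2 with hV
  have hVp : Poly V := by
    have e1 : Poly (fun y : List Bool => (unpair y).1) := NPC.Poly.fst poly_unpair
    have e2 : Poly (fun y : List Bool => (unpair y).2) := NPC.Poly.snd poly_unpair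
    have e3 : Poly (fun y : List Bool => pN.eval (unpair y).1.length) :=
      ((UPoly.length e1).eval pN).toPoly
    have trp := trial2_poly hV0 p pn hF hL
    have key : ∀ {f : List Bool → List Bool}, Poly f → Poly (fun y : List Bool =>
        tr (unpair y).1 ((f y).take (pN.eval (unpair y).1.length))) := by
      intro f hf
      exact trp.comp (NPC.Poly.pair e1 (take_poly' hf e3))
    have d1 := drop_poly' e2 e3
    have d2 := drop_poly' d1 e3
    have d3 := drop_poly' d2 e3
    refine (NPC.Poly.or (key e2) (NPC.Poly.or (key d1) (NPC.Poly.or (key d2) (key d3)))).congr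
      fun y => ?_
    rw [hV]
    simp only
    rw [acc_four]
  refine ⟨fun y => [V y], Polynomial.C 4 * pN, polyTime_of_poly hVp, ?_⟩
  have hVx : ∀ x r, V (pairBits x r) = acc (tr x) (pN.eval x.length) 4 r := by
    intro x r
    rw [hV]
    simp only
    rw [unpair_pairBits]
  have hl : ∀ x : List Bool, (Polynomial.C 4 * pN).eval x.length = 4 * pN.eval x.length := by
    intro x; simp
  constructor
  · intro x hx
    set m : ℕ := p.eval x.length + 1 with hm
    have hfin : {w | ver V0 p x w = true}.Finite := by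
      refine (List.finite_length_le Bool (p.eval x.length)).subset fun w hw => ?_
      exact (ver_iff.1 hw).1
    set W : Finset (List Bool) := hfin.toFinset with hW
    have hWm : ∀ w, w ∈ W ↔ ver V0 p x w = true := fun w => by rw [hW]; simp
    have hWs : ∀ w ∈ W, w.length + 1 ≤ m := fun w hw => by
      have := (ver_iff.1 ((hWm w).1 hw)).1
      omega
    have hW1 : 1 ≤ W.card := by
      obtain ⟨w, hw⟩ := (hA2 x).1 hx
      exact Finset.card_pos.2 ⟨w, (hWm w).2 hw⟩
    obtain ⟨k, hkm, hk1, hk2⟩ := exists_scale W.card m hW1 (card_short m W hWs)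
    obtain ⟨s, hs⟩ : ∃ s, pn.eval x.length = k * m + s := by
      refine ⟨pn.eval x.length - k * m, ?_⟩
      have : k * m ≤ pn.eval x.length := by
        rw [epn]
        exact Nat.mul_le_mul (by omega) (le_of_eq hm)
      omega
    -- the second part of the random string
    have hG : ∀ r ∈ BL (pn.eval x.length), (∃ w, Iso m k W r w) →
        7 * 2 ^ ((Lm p q).eval x.length) ≤
          8 * ∑ r2 ∈ BL ((Lm p q).eval x.length), ind (tr x (r ++ r2)) := by
      rintro r hr ⟨w, hw1, hw2, hw3⟩
      rw [mem_BL] at hr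
      set y : List Bool := bits (x, rowsL m k r) with hy
      have hmin : min k (p.eval x.length + 3) = k := min_eq_left (by omega)
      have hyq : ∀ r2, yq p pn x (r ++ r2) k = y := by
        intro r2
        unfold yq
        rw [hmin, List.take_left' hr]
      have hLy : L y ≤ (Lm p q).eval x.length := by
        rw [← hyq []]
        exact L_le hq p pn x _ k
      have hu := hFu y w ((ver_g1 V0 p x _ w).2 ⟨(hWm w).1 hw1, hw2⟩) (fun w' hw' => by
        have h := (ver_g1 V0 p x _ w').1 hw'
        exact hw3 w' ((hWm w').2 h.1) h.2)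
      obtain ⟨c, hc⟩ := Nat.exists_eq_add_of_le hLy
      rw [hc, sum_BL_append]
      have h1 : ∀ u ∈ BL (L y), (2 : ℤ) ^ c * ind (decide (w ∈ F (y, u))) ≤
          ∑ v ∈ BL c, ind (tr x (r ++ (u ++ v))) := by
        intro u hu'
        rw [mem_BL] at hu'
        by_cases h : w ∈ F (y, u)
        · have h2 : ∀ v ∈ BL c, ind (tr x (r ++ (u ++ v))) = 1 := by
            intro v _
            have : tr x (r ++ (u ++ v)) = true := by
              rw [htr]
              unfold trial2
              rw [List.any_eq_true]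
              refine ⟨k, List.mem_range.2 (by omega), ?_⟩
              rw [hyq (u ++ v), List.any_eq_true]
              refine ⟨w, ?_, (hWm w).1 hw1⟩
              rw [List.drop_left' hr, List.take_left' hu']
              exact h
            rw [this]; rfl
          rw [Finset.sum_congr rfl h2]
          have : ∑ r ∈ BL c, (1 : ℤ) = 2 ^ c := by rw [← card_BL]; simp
          rw [this]
          simp [ind, h]
        · have : ind (decide (w ∈ F (y, u))) = 0 := by simp [ind, h]
          rw [this, mul_zero]
          exact Finset.sum_nonneg fun v _ => ind_nonneg _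
      have h2 := Finset.sum_le_sum h1
      rw [← Finset.mul_sum] at h2
      have h3 : (8 : ℤ) * ∑ u ∈ BL (L y), ind (decide (w ∉ F (y, u))) ≤ 2 ^ (L y) := by
        rw [← ncard_eq]
        exact_mod_cast hu
      have h4 : ∑ u ∈ BL (L y), ind (decide (w ∉ F (y, u))) =
          2 ^ (L y) - ∑ u ∈ BL (L y), ind (decide (w ∈ F (y, u))) := by
        have e : ∀ u ∈ BL (L y), ind (decide (w ∉ F (y, u))) =
            1 - ind (decide (w ∈ F (y, u))) := by
          intro u _
          by_cases h : w ∈ F (y, u) <;> simp [ind, h]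
        rw [Finset.sum_congr rfl e, Finset.sum_sub_distrib]
        have : ∑ r ∈ BL (L y), (1 : ℤ) = 2 ^ (L y) := by rw [← card_BL]; simp
        rw [this]
      rw [h4] at h3
      have h5 : (0 : ℤ) < 2 ^ c := by positivity
      rw [pow_add]
      nlinarith
    have h1 := iso_count m s W hWs k hk1 hk2 (fun r => decide (∃ w, Iso m k W r w))
      (fun r hr => by simpa using hr)
    rw [← hs] at h1
    have h2 : 21 * 2 ^ (pN.eval x.length) ≤ 128 * ∑ r ∈ BL (pN.eval x.length), ind (tr x r) := by
      rw [epN, sum_BL_append, pow_add]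
      have h3 : ∀ r ∈ BL (pn.eval x.length),
          (7 * 2 ^ ((Lm p q).eval x.length)) * ind (decide (∃ w, Iso m k W r w)) ≤
          8 * ∑ r2 ∈ BL ((Lm p q).eval x.length), ind (tr x (r ++ r2)) := by
        intro r hr
        by_cases h : ∃ w, Iso m k W r w
        · have : ind (decide (∃ w, Iso m k W r w)) = 1 := by simp [ind, h]
          rw [this, mul_one]
          exact hG r hr h
        · have : ind (decide (∃ w, Iso m k W r w)) = 0 := by simp [ind, h]
          rw [this, mul_zero]
          exact mul_nonneg (by norm_num) (Finset.sum_nonneg fun v _ => ind_nonneg _)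
      have h4 := Finset.sum_le_sum h3
      rw [← Finset.mul_sum, ← Finset.mul_sum] at h4
      have h5 : (0 : ℤ) < 2 ^ ((Lm p q).eval x.length) := by positivity
      nlinarith
    have h6 := amplify2 (tr x) (pN.eval x.length) h2
    rw [sum_ind_eq] at h6
    rw [hl]
    have h3 : {r : List Bool | r.length = 4 * pN.eval x.length ∧ [V (pairBits x r)] = [true]} =
        {r : List Bool | r.length = 4 * pN.eval x.length ∧
          acc (tr x) (pN.eval x.length) 4 r = true} := by
      ext r
      simp only [Set.mem_ofPred_eq, hVx, List.cons.injEq, and_true]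
    rw [h3]
    exact_mod_cast h6
  · intro x hx r _ h
    apply hx
    simp only [hVx, List.cons.injEq] at h
    obtain ⟨s, hs⟩ := acc_true h.1
    rw [htr] at hs
    unfold trial2 at hs
    rw [List.any_eq_true] at hs
    obtain ⟨k, _, hk⟩ := hs
    rw [List.any_eq_true] at hk
    obtain ⟨w, _, hw⟩ := hk
    exact (hA2 x).2 ⟨_, hw⟩

end Pool.Agent.W690.RL
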